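import Mathlib.Algebra.Order.Archimedean.Basic
import Mathlib.Algebra.Order.BigOperators.Group.Finset
import Mathlib.Data.Nat.ModEq
import Mathlib.Algebra.Notation.Lemmas
import Mathlib.Topology.Sheaves.Presheaf
import Mathlib.Algebra.Order.Ring.Star
import Mathlib.Data.List.GetD
import Mathlib.Combinatorics.Hindman
import Mathlib.Data.Nat.Size
import Mathlib.Computability.RE
import Mathlib.Computability.RecursiveIn

-- ======== part 0: formerly Pool.Agent.MP_0ee11a_lc.Comp
section MrgPart0

/-!
Closure properties of computable functions, tagged for `fun_prop`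
(copied from the helper library of MP_b427ce_lc, with list recursion added).
-/

namespace Pool.Agent.MP_0ee11a_lc

open Encodable Nat.Partrec

attribute [fun_prop] ComputableIn

section closure

variable {α β γ σ : Type} [Primcodable α] [Primcodable β] [Primcodable γ] [Primcodable σ]
  {O : Set (ℕ →. ℕ)}

lemma cin_of_eq {f g : α → β} (hf : ComputableIn O f) (h : ∀ a, f a = g a) : ComputableIn O g :=
  (funext h : f = g) ▸ hf

lemma toC {f : α → β} (hf : ComputableIn ∅ f) : Computable f :=
  recursiveIn_empty_iff.1 hf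

@[fun_prop] lemma c_id : ComputableIn O (fun x : α => x) := ComputableIn.id

@[fun_prop] lemma c_const (c : β) : ComputableIn O (fun _ : α => c) := ComputableIn.const c

@[fun_prop] lemma c_comp {f : β → γ} {g : α → β} (hf : ComputableIn O f) (hg : ComputableIn O g) :
    ComputableIn O fun a => f (g a) :=
  (Nat.RecursiveIn.comp hf hg).of_eq fun n => by
    simp only [Part.map_some, Part.bind_eq_bind]
    rcases e : decode (α := α) n with - | a <;> simp [encodek]

@[fun_prop] lemma c_pair {f : α → β} {g : α → γ} (hf : ComputableIn O f) (hg : ComputableIn O g) :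
    ComputableIn O fun a => (f a, g a) :=
  (Nat.RecursiveIn.pair hf hg).of_eq fun n => by
    cases decode (α := α) n <;> simp [Seq.seq]

lemma c_prim {f : β → γ} (hf : Primrec f) {g : α → β} (hg : ComputableIn O g) :
    ComputableIn O fun a => f (g a) := c_comp hf.computableIn hg

lemma c_prim₂ {f : β → γ → σ} (hf : Primrec₂ f) {g : α → β} {h : α → γ}
    (hg : ComputableIn O g) (hh : ComputableIn O h) :
    ComputableIn O fun a => f (g a) (h a) :=
  c_comp (f := fun p : β × γ => f p.1 p.2) (Primrec.computableIn hf) (c_pair hg hh)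

@[fun_prop] lemma c_fst {f : α → β × γ} (hf : ComputableIn O f) :
    ComputableIn O fun a => (f a).1 := c_prim Primrec.fst hf

@[fun_prop] lemma c_snd {f : α → β × γ} (hf : ComputableIn O f) :
    ComputableIn O fun a => (f a).2 := c_prim Primrec.snd hf

lemma nat_prec' {f g h : ℕ →. ℕ} (hf : Nat.RecursiveIn O f) (hg : Nat.RecursiveIn O g)
    (hh : Nat.RecursiveIn O h) :
    Nat.RecursiveIn O fun a => (f a).bind fun n => n.rec (g a)
      fun y IH => do {let i ← IH; h (Nat.pair a (Nat.pair y i))} :=
  ((Nat.RecursiveIn.prec hg hh).comp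
    (Nat.RecursiveIn.pair Nat.Partrec.some.recursiveIn hf)).of_eq fun a =>
    Part.ext fun s => by simp [Seq.seq]

lemma c_nat_rec' {f : α → ℕ} {g : α → σ} {h : α → ℕ × σ → σ} (hf : ComputableIn O f)
    (hg : ComputableIn O g) (hh : ComputableIn O fun p : α × (ℕ × σ) => h p.1 p.2) :
    ComputableIn O fun a => Nat.rec (motive := fun _ => σ) (g a) (fun y IH => h a (y, IH)) (f a) :=
  (nat_prec' hf hg hh).of_eq fun n => by
    rcases e : decode (α := α) n with - | a
    · simp
    · simp only [Part.coe_some, Part.bind_some, Part.map_some, encode_nat]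
      induction f a <;> simp_all

/-- iteration with a counter -/
def natIter (g : σ) (h : ℕ → σ → σ) : ℕ → σ
  | 0 => g
  | n + 1 => h n (natIter g h n)

@[fun_prop] lemma c_natIter {f : α → ℕ} {g : α → σ} {h : α → ℕ → σ → σ} (hf : ComputableIn O f)
    (hg : ComputableIn O g) (hh : ComputableIn O fun p : α × (ℕ × σ) => h p.1 p.2.1 p.2.2) :
    ComputableIn O fun a => natIter (g a) (h a) (f a) :=
  cin_of_eq (c_nat_rec' (h := fun a p => h a p.1 p.2) hf hg hh) fun a => by
    induction f a with
    | zero => rfl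
    | succ n ih => simp only [natIter, ← ih]

open Classical in
lemma c_find {p : α → ℕ → Bool} (hp : ComputableIn O fun x : α × ℕ => p x.1 x.2)
    (h : ∀ a, ∃ n, p a n = true) : ComputableIn O fun a => Nat.find (h a) := by
  have h1 : ComputableIn O fun x : α × ℕ => cond (p x.1 x.2) 0 1 :=
    c_prim (Primrec.dom_bool fun b => cond b 0 1) hp
  refine (Nat.RecursiveIn.rfind h1).of_eq fun n => ?_
  rcases e : decode (α := α) n with - | a
  · simp [e, Nat.rfind_zero_none]
  · simp only [decode_prod_val, Nat.unpair_pair, e, Option.map_some, decode_nat,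
      Option.bind_some, Part.coe_some, Part.bind_some, Part.map_some, encode_nat,
      Part.map_eq_map]
    rw [Part.eq_some_iff, Nat.mem_rfind]
    constructor
    · simp [Nat.find_spec (h a)]
    · intro m hm
      have := Nat.find_min (h a) hm
      simp at this
      simp [this]

@[fun_prop] lemma c_add {f g : α → ℕ} (hf : ComputableIn O f) (hg : ComputableIn O g) :
    ComputableIn O fun a => f a + g a := c_prim₂ Primrec.nat_add hf hg

@[fun_prop] lemma c_sub {f g : α → ℕ} (hf : ComputableIn O f) (hg : ComputableIn O g) :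
    ComputableIn O fun a => f a - g a := c_prim₂ Primrec.nat_sub hf hg

@[fun_prop] lemma c_mul {f g : α → ℕ} (hf : ComputableIn O f) (hg : ComputableIn O g) :
    ComputableIn O fun a => f a * g a := c_prim₂ Primrec.nat_mul hf hg

@[fun_prop] lemma c_div {f g : α → ℕ} (hf : ComputableIn O f) (hg : ComputableIn O g) :
    ComputableIn O fun a => f a / g a := c_prim₂ Primrec.nat_div hf hg

@[fun_prop] lemma c_mod {f g : α → ℕ} (hf : ComputableIn O f) (hg : ComputableIn O g) :
    ComputableIn O fun a => f a % g a := c_prim₂ Primrec.nat_mod hf hg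

@[fun_prop] lemma c_pow {f g : α → ℕ} (hf : ComputableIn O f) (hg : ComputableIn O g) :
    ComputableIn O fun a => f a ^ g a :=
  c_prim₂ (Primrec₂.unpaired'.1 Nat.Primrec.pow) hf hg

@[fun_prop] lemma c_max {f g : α → ℕ} (hf : ComputableIn O f) (hg : ComputableIn O g) :
    ComputableIn O fun a => max (f a) (g a) := c_prim₂ Primrec.nat_max hf hg

@[fun_prop] lemma c_natPair {f g : α → ℕ} (hf : ComputableIn O f) (hg : ComputableIn O g) :
    ComputableIn O fun a => Nat.pair (f a) (g a) := c_prim₂ Primrec₂.natPair hf hg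

@[fun_prop] lemma c_unpair {f : α → ℕ} (hf : ComputableIn O f) :
    ComputableIn O fun a => Nat.unpair (f a) := c_prim Primrec.unpair hf

@[fun_prop] lemma c_encode {f : α → β} (hf : ComputableIn O f) :
    ComputableIn O fun a => encode (f a) := c_prim Primrec.encode hf

@[fun_prop] lemma c_decode {f : α → ℕ} (hf : ComputableIn O f) :
    ComputableIn O fun a => (decode (f a) : Option β) := c_prim Primrec.decode hf

@[fun_prop] lemma c_ofNatCode {f : α → ℕ} (hf : ComputableIn O f) :
    ComputableIn O fun a => Denumerable.ofNat Code (f a) := c_prim (Primrec.ofNat Code) hf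

@[fun_prop] lemma c_curry {f : α → Code} {g : α → ℕ} (hf : ComputableIn O f)
    (hg : ComputableIn O g) : ComputableIn O fun a => Code.curry (f a) (g a) :=
  c_prim₂ Code.primrec₂_curry hf hg

@[fun_prop] lemma c_evaln {k : α → ℕ} {f : α → Code} {g : α → ℕ} (hk : ComputableIn O k)
    (hf : ComputableIn O f) (hg : ComputableIn O g) :
    ComputableIn O fun a => Code.evaln (k a) (f a) (g a) :=
  c_prim Code.primrec_evaln (c_pair (c_pair hk hf) hg)

@[fun_prop] lemma c_cond {c : α → Bool} {f g : α → β} (hc : ComputableIn O c)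
    (hf : ComputableIn O f) (hg : ComputableIn O g) :
    ComputableIn O fun a => cond (c a) (f a) (g a) :=
  c_prim (f := fun p : Bool × β × β => cond p.1 p.2.1 p.2.2)
    (Primrec.cond Primrec.fst (Primrec.fst.comp Primrec.snd) (Primrec.snd.comp Primrec.snd))
    (c_pair hc (c_pair hf hg))

@[fun_prop] lemma c_and {f g : α → Bool} (hf : ComputableIn O f) (hg : ComputableIn O g) :
    ComputableIn O fun a => (f a && g a) := c_prim₂ Primrec.and hf hg

@[fun_prop] lemma c_or {f g : α → Bool} (hf : ComputableIn O f) (hg : ComputableIn O g) :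
    ComputableIn O fun a => (f a || g a) := c_prim₂ Primrec.or hf hg

@[fun_prop] lemma c_not {f : α → Bool} (hf : ComputableIn O f) :
    ComputableIn O fun a => (!f a) := c_prim Primrec.not hf

@[fun_prop] lemma c_toNat {f : α → Bool} (hf : ComputableIn O f) :
    ComputableIn O fun a => (f a).toNat := c_prim (Primrec.dom_bool _) hf

/-- boolean equality test -/
def eqB {β : Type} [DecidableEq β] (x y : β) : Bool := decide (x = y)

/-- boolean order test -/
def leB (x y : ℕ) : Bool := decide (x ≤ y)

@[simp] lemma eqB_iff {β : Type} [DecidableEq β] {x y : β} : eqB x y = true ↔ x = y := by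
  simp [eqB]

@[simp] lemma eqB_false_iff {β : Type} [DecidableEq β] {x y : β} : eqB x y = false ↔ x ≠ y := by
  simp [eqB]

@[simp] lemma leB_iff {x y : ℕ} : leB x y = true ↔ x ≤ y := by simp [leB]

@[simp] lemma leB_false_iff {x y : ℕ} : leB x y = false ↔ y < x := by simp [leB]

@[fun_prop] lemma c_eqB [DecidableEq β] {f g : α → β} (hf : ComputableIn O f)
    (hg : ComputableIn O g) : ComputableIn O fun a => eqB (f a) (g a) :=
  c_prim₂ (f := fun x y => decide (x = y)) Primrec.eq.decide hf hg

@[fun_prop] lemma c_leB {f g : α → ℕ} (hf : ComputableIn O f)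
    (hg : ComputableIn O g) : ComputableIn O fun a => leB (f a) (g a) :=
  c_prim₂ (f := fun x y => decide (x ≤ y)) Primrec.nat_le.decide hf hg

@[fun_prop] lemma c_testBit {f g : α → ℕ} (hf : ComputableIn O f) (hg : ComputableIn O g) :
    ComputableIn O fun a => Nat.testBit (f a) (g a) :=
  cin_of_eq (f := fun a => eqB (f a / 2 ^ g a % 2) 1) (by fun_prop) fun a => by
    simp [eqB, Nat.testBit_eq_decide_div_mod_eq]

@[fun_prop] lemma c_some {f : α → β} (hf : ComputableIn O f) :
    ComputableIn O fun a => some (f a) := c_prim Primrec.option_some hf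

@[fun_prop] lemma c_optGetD {f : α → Option β} {g : α → β} (hf : ComputableIn O f)
    (hg : ComputableIn O g) : ComputableIn O fun a => (f a).getD (g a) :=
  c_prim₂ Primrec.option_getD hf hg

@[fun_prop] lemma c_isSome {f : α → Option β} (hf : ComputableIn O f) :
    ComputableIn O fun a => (f a).isSome := c_prim Primrec.option_isSome hf

@[fun_prop] lemma c_cons {f : α → β} {g : α → List β} (hf : ComputableIn O f)
    (hg : ComputableIn O g) : ComputableIn O fun a => f a :: g a :=
  c_prim₂ Primrec.list_cons hf hg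

@[fun_prop] lemma c_append {f g : α → List β} (hf : ComputableIn O f)
    (hg : ComputableIn O g) : ComputableIn O fun a => f a ++ g a :=
  c_prim₂ Primrec.list_append hf hg

@[fun_prop] lemma c_length {f : α → List β} (hf : ComputableIn O f) :
    ComputableIn O fun a => (f a).length := c_prim Primrec.list_length hf

@[fun_prop] lemma c_range {f : α → ℕ} (hf : ComputableIn O f) :
    ComputableIn O fun a => List.range (f a) := c_prim Primrec.list_range hf

@[fun_prop] lemma c_take {f : α → ℕ} {g : α → List β} (hf : ComputableIn O f)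
    (hg : ComputableIn O g) : ComputableIn O fun a => List.take (f a) (g a) :=
  c_prim₂ Primrec.list_take hf hg

@[fun_prop] lemma c_drop {f : α → ℕ} {g : α → List β} (hf : ComputableIn O f)
    (hg : ComputableIn O g) : ComputableIn O fun a => List.drop (f a) (g a) :=
  c_prim₂ Primrec.list_drop hf hg

@[fun_prop] lemma c_getElem? {f : α → List β} {g : α → ℕ} (hf : ComputableIn O f)
    (hg : ComputableIn O g) : ComputableIn O fun a => (f a)[g a]? :=
  c_prim₂ Primrec.list_getElem? hf hg

@[fun_prop] lemma c_getD {f : α → List β} {g : α → ℕ} {d : α → β} (hf : ComputableIn O f)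
    (hg : ComputableIn O g) (hd : ComputableIn O d) :
    ComputableIn O fun a => (f a).getD (g a) (d a) :=
  cin_of_eq (c_optGetD (c_getElem? hf hg) hd) fun a => by simp

@[fun_prop] lemma c_flatten {f : α → List (List β)} (hf : ComputableIn O f) :
    ComputableIn O fun a => (f a).flatten := c_prim Primrec.list_flatten hf

@[fun_prop] lemma c_head? {f : α → List β} (hf : ComputableIn O f) :
    ComputableIn O fun a => (f a).head? := c_prim Primrec.list_head? hf

omit [Primcodable β] [Primcodable σ] in
lemma foldl_eq_natIter (h : σ → β → σ) (g : σ) (l : List β) (d : β) :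
    l.foldl h g = natIter g (fun n acc => h acc (l.getD n d)) l.length := by
  have : ∀ n ≤ l.length,
      (l.take n).foldl h g = natIter g (fun n acc => h acc (l.getD n d)) n := by
    intro n
    induction n with
    | zero => intro _; rfl
    | succ n ih =>
      intro hn
      rw [List.take_succ_eq_append_getElem (by omega), List.foldl_append, ih (by omega)]
      simp [natIter, List.getElem?_eq_getElem (show n < l.length by omega)]
  simpa using this l.length le_rfl

@[fun_prop] lemma c_foldl [Inhabited β] {f : α → List β} {g : α → σ} {h : α → σ → β → σ}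
    (hf : ComputableIn O f) (hg : ComputableIn O g)
    (hh : ComputableIn O fun p : α × (σ × β) => h p.1 p.2.1 p.2.2) :
    ComputableIn O fun a => (f a).foldl (h a) (g a) := by
  refine cin_of_eq (f := fun a => natIter (g a)
    (fun n acc => h a acc ((f a).getD n default)) (f a).length) ?_
    fun a => (foldl_eq_natIter _ _ _ _).symm
  refine c_natIter (c_length hf) hg ?_
  exact c_comp hh (g := fun p : α × (ℕ × σ) => (p.1, p.2.2, (f p.1).getD p.2.1 default))
    (by fun_prop)

@[fun_prop] lemma c_map [Inhabited β] {f : α → List β} {g : α → β → γ}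
    (hf : ComputableIn O f) (hg : ComputableIn O fun p : α × β => g p.1 p.2) :
    ComputableIn O fun a => (f a).map (g a) := by
  refine cin_of_eq (f := fun a => (f a).foldl (fun acc b => acc ++ [g a b]) []) ?_ fun a => ?_
  · refine c_foldl hf (c_const _) ?_
    have := c_comp hg (g := fun p : α × (List γ × β) => (p.1, p.2.2)) (by fun_prop)
    exact c_append (by fun_prop) (c_cons this (c_const _))
  · induction f a using List.reverseRecOn with
    | nil => rfl
    | append_singleton l b ih => simp [List.foldl_append, ih]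

@[fun_prop] lemma c_flatMap [Inhabited β] {f : α → List β} {g : α → β → List γ}
    (hf : ComputableIn O f) (hg : ComputableIn O fun p : α × β => g p.1 p.2) :
    ComputableIn O fun a => (f a).flatMap (g a) :=
  cin_of_eq (c_flatten (c_map hf hg)) fun _ => by simp [List.flatMap_def]

@[fun_prop] lemma c_filter [Inhabited β] {f : α → List β} {g : α → β → Bool}
    (hf : ComputableIn O f) (hg : ComputableIn O fun p : α × β => g p.1 p.2) :
    ComputableIn O fun a => (f a).filter (g a) := by
  refine cin_of_eq (f := fun a => (f a).flatMap fun b => cond (g a b) [b] []) ?_ fun a => ?_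
  · exact c_flatMap hf (c_cond hg (by fun_prop) (c_const _))
  · induction f a with
    | nil => rfl
    | cons b l ih => cases h : g a b <;> simp [h, ← ih]

@[fun_prop] lemma c_any [Inhabited β] {f : α → List β} {g : α → β → Bool}
    (hf : ComputableIn O f) (hg : ComputableIn O fun p : α × β => g p.1 p.2) :
    ComputableIn O fun a => (f a).any (g a) := by
  refine cin_of_eq (f := fun a => ((f a).filter (g a)).head?.isSome)
    (c_isSome (c_head? (c_filter hf hg))) fun a => ?_
  induction f a with
  | nil => rfl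
  | cons b l ih => cases h : g a b <;> simp_all

@[fun_prop] lemma c_all [Inhabited β] {f : α → List β} {g : α → β → Bool}
    (hf : ComputableIn O f) (hg : ComputableIn O fun p : α × β => g p.1 p.2) :
    ComputableIn O fun a => (f a).all (g a) := by
  refine cin_of_eq (f := fun a => !((f a).any fun b => !g a b))
    (c_not (c_any hf (c_not hg))) fun a => ?_
  induction f a with
  | nil => rfl
  | cons b l ih => cases h : g a b <;> simp_all

@[fun_prop] lemma c_find? [Inhabited β] {f : α → List β} {g : α → β → Bool}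
    (hf : ComputableIn O f) (hg : ComputableIn O fun p : α × β => g p.1 p.2) :
    ComputableIn O fun a => (f a).find? (g a) :=
  cin_of_eq (c_head? (c_filter hf hg)) fun a => List.head?_filter

@[fun_prop] lemma c_replicate {f : α → ℕ} {g : α → β} (hf : ComputableIn O f)
    (hg : ComputableIn O g) : ComputableIn O fun a => List.replicate (f a) (g a) :=
  cin_of_eq (c_map (c_range hf) (g := fun a _ => g a) (by fun_prop)) fun _ => by simp

/-- structural recursion on lists -/
def lrec {β σ : Type} (g : σ) (h : β → List β → σ → σ) : List β → σ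
  | [] => g
  | x :: l => h x l (lrec g h l)

omit [Primcodable β] [Primcodable σ] in
lemma lrec_eq_natIter (g : σ) (h : β → List β → σ → σ) (l : List β) (d : β) :
    lrec g h l = natIter g
      (fun n acc => h (l.getD (l.length - 1 - n) d) (l.drop (l.length - n)) acc) l.length := by
  have : ∀ n ≤ l.length, lrec g h (l.drop (l.length - n)) = natIter g
      (fun n acc => h (l.getD (l.length - 1 - n) d) (l.drop (l.length - n)) acc) n := by
    intro n
    induction n with
    | zero => intro _; simp [lrec, natIter]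
    | succ n ih =>
      intro hn
      have h1 : l.length - (n + 1) < l.length := by omega
      rw [List.drop_eq_getElem_cons h1, show l.length - (n + 1) + 1 = l.length - n by omega]
      simp only [lrec, natIter, ih (by omega)]
      rw [show l.length - 1 - n = l.length - (n + 1) by omega, List.getD_eq_getElem _ _ h1]
  simpa using this l.length le_rfl

@[fun_prop] lemma c_lrec [Inhabited β] {f : α → List β} {g : α → σ}
    {h : α → β → List β → σ → σ} (hf : ComputableIn O f) (hg : ComputableIn O g)
    (hh : ComputableIn O fun p : α × (β × List β × σ) => h p.1 p.2.1 p.2.2.1 p.2.2.2) :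
    ComputableIn O fun a => lrec (g a) (h a) (f a) := by
  refine cin_of_eq (f := fun a => natIter (g a)
    (fun n acc => h a ((f a).getD ((f a).length - 1 - n) default)
      ((f a).drop ((f a).length - n)) acc) (f a).length) ?_
    fun a => (lrec_eq_natIter _ _ _ _).symm
  refine c_natIter (c_length hf) hg ?_
  exact c_comp hh (g := fun p : α × (ℕ × σ) =>
    (p.1, (f p.1).getD ((f p.1).length - 1 - p.2.1) default,
      (f p.1).drop ((f p.1).length - p.2.1), p.2.2)) (by fun_prop)

@[fun_prop] lemma c_sum {f : α → List ℕ} (hf : ComputableIn O f) :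
    ComputableIn O fun a => (f a).sum := by
  refine cin_of_eq (f := fun a => lrec 0 (fun x _ acc => x + acc) (f a)) (by fun_prop) fun a => ?_
  induction f a with
  | nil => rfl
  | cons b l ih => simp [lrec, ih]

end closure

end Pool.Agent.MP_0ee11a_lc

end MrgPart0

-- ======== part 1: formerly Pool.Agent.MP_0ee11a_lc.Count
section MrgPart1

/-!
Binary supports, levels of gaps, and the number of classes of the Cartesian tree of the levels.
Along every idempotent ultrafilter on the positive integers this number is `1` modulo `3`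
exactly when the third level statement attached to the levels fails.
-/

namespace Pool.Agent.MP_0ee11a_lc

open Filter

/-- positions of the binary digits one, in increasing order -/
def bits (X : ℕ) : List ℕ := (List.range X).filter fun i => Nat.testBit X i

lemma mem_bits {X i : ℕ} : i ∈ bits X ↔ X.testBit i = true := by
  simp only [bits, List.mem_filter, List.mem_range]
  refine ⟨fun h => h.2, fun h => ⟨?_, h⟩⟩
  exact lt_of_lt_of_le Nat.lt_two_pow_self (Nat.ge_two_pow_of_testBit h)

lemma bits_sorted (X : ℕ) : (bits X).Pairwise (· < ·) :=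
  List.Pairwise.filter _ List.pairwise_lt_range

lemma bits_ne_nil {X : ℕ} (h : 0 < X) : bits X ≠ [] := by
  obtain ⟨i, hi⟩ := Nat.exists_testBit_of_ne_zero h.ne'
  exact List.ne_nil_of_mem (mem_bits.2 hi)

lemma le_of_mem_bits {Y k i : ℕ} (h : 2 ^ k ∣ Y) (hi : i ∈ bits Y) : k ≤ i := by
  obtain ⟨m, rfl⟩ := h
  have := mem_bits.1 hi
  rw [Nat.testBit_two_pow_mul] at this
  simp at this
  exact this.1

lemma lt_of_mem_bits {A k i : ℕ} (h : A < 2 ^ k) (hi : i ∈ bits A) : i < k := by
  by_contra hk
  have := mem_bits.1 hi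
  rw [Nat.testBit_lt_two_pow (lt_of_lt_of_le h (Nat.pow_le_pow_right two_pos (by omega)))] at this
  exact absurd this (by simp)

lemma bits_add {A Y k : ℕ} (hA : A < 2 ^ k) (hY : 2 ^ k ∣ Y) :
    bits (A + Y) = bits A ++ bits Y := by
  refine List.Pairwise.eq_of_mem_iff (r := (· < ·)) (bits_sorted _) ?_ ?_
  · rw [List.pairwise_append]
    exact ⟨bits_sorted _, bits_sorted _, fun a ha b hb =>
      lt_of_lt_of_le (lt_of_mem_bits hA ha) (le_of_mem_bits hY hb)⟩
  · intro i
    obtain ⟨m, rfl⟩ := hY
    rw [List.mem_append, mem_bits, mem_bits, mem_bits, add_comm, Nat.testBit_two_pow_mul_add _ hA,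
      Nat.testBit_two_pow_mul]
    split_ifs with h
    · simp [h]
    · have : A.testBit i = false :=
        Nat.testBit_lt_two_pow (lt_of_lt_of_le hA (Nat.pow_le_pow_right two_pos (by omega)))
      simp [this, not_lt.1 h]

/-- level of the gap from `x` to `y`: the least `b < x` all of whose witnesses `c ≤ x` have
been refuted by some `d ≤ y`, and `x` if there is none -/
def lev (T : ℕ → ℕ → ℕ → Bool) (x y : ℕ) : ℕ :=
  ((List.range x).find? fun b =>
    (List.range (x + 1)).all fun c => (List.range (y + 1)).any fun d => !T b c d).getD x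

lemma lev_cases (T : ℕ → ℕ → ℕ → Bool) (x y : ℕ) :
    lev T x y = x ∨ (lev T x y < x ∧ ∀ c ≤ x, ∃ d ≤ y, T (lev T x y) c d = false) := by
  unfold lev
  cases h : (List.range x).find? fun b =>
    (List.range (x + 1)).all fun c => (List.range (y + 1)).any fun d => !T b c d with
  | none => left; rfl
  | some b =>
    right
    have h1 := List.find?_some h
    have h2 := List.mem_of_find?_eq_some h
    simp only [Option.getD_some]
    refine ⟨List.mem_range.1 h2, fun c hc => ?_⟩
    simp only [List.all_eq_true, List.any_eq_true, List.mem_range, Bool.not_eq_true'] at h1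
    obtain ⟨d, hd, hd'⟩ := h1 c (by omega)
    exact ⟨d, by omega, hd'⟩

lemma lev_le (T : ℕ → ℕ → ℕ → Bool) (x y : ℕ) : lev T x y ≤ x := by
  rcases lev_cases T x y with h | h
  · exact h.le
  · exact h.1.le

lemma lev_le_of (T : ℕ → ℕ → ℕ → Bool) {x y b : ℕ} (hb : b < x)
    (h : ∀ c ≤ x, ∃ d ≤ y, T b c d = false) : lev T x y ≤ b := by
  unfold lev
  have hp : ((List.range (x + 1)).all fun c =>
      (List.range (y + 1)).any fun d => !T b c d) = true := by
    simp only [List.all_eq_true, List.any_eq_true, List.mem_range, Bool.not_eq_true']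
    intro c hc
    obtain ⟨d, hd, hd'⟩ := h c (by omega)
    exact ⟨d, by omega, hd'⟩
  cases h' : (List.range x).find? fun b =>
    (List.range (x + 1)).all fun c => (List.range (y + 1)).any fun d => !T b c d with
  | none =>
    rw [List.find?_eq_none] at h'
    exact absurd hp (h' b (List.mem_range.2 hb))
  | some b' =>
    simp only [Option.getD_some]
    rw [List.find?_range_eq_some] at h'
    by_contra hlt
    have := h'.2.2 b (by omega)
    rw [hp] at this
    exact absurd this (by simp)

/-- if the first `B` rows have true witnesses then far gaps have level at least `B` -/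
lemma lev_ge (T : ℕ → ℕ → ℕ → Bool) (B : ℕ) (h : ∀ b < B, ∃ c, ∀ d, T b c d = true) :
    ∃ k, ∀ x ≥ k, ∀ y, B ≤ lev T x y := by
  choose! w hw using h
  refine ⟨B + (Finset.range B).sup w, fun x hx y => ?_⟩
  rcases lev_cases T x y with h1 | ⟨_, h2⟩
  · omega
  · by_contra hlt
    have hb : lev T x y < B := by omega
    have : w (lev T x y) ≤ (Finset.range B).sup w := Finset.le_sup (Finset.mem_range.2 hb)
    obtain ⟨d, -, hd⟩ := h2 (w (lev T x y)) (by omega)
    rw [hw _ hb d] at hd
    exact absurd hd (by simp)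

/-- a bad row bounds the level of long gaps -/
lemma lev_le_bad (T : ℕ → ℕ → ℕ → Bool) {b : ℕ} (h : ∀ c, ∃ d, T b c d = false) {x : ℕ}
    (hx : b < x) : ∃ k, ∀ y ≥ k, lev T x y ≤ b := by
  choose w hw using h
  refine ⟨(Finset.range (x + 1)).sup w, fun y hy => lev_le_of T hx fun c hc => ⟨w c, ?_, hw c⟩⟩
  exact le_trans (Finset.le_sup (f := w) (Finset.mem_range.2 (by omega))) hy

/-- levels of consecutive pairs -/
def gaps (T : ℕ → ℕ → ℕ → Bool) (l : List ℕ) : List ℕ :=
  lrec [] (fun x l acc => cond (eqB l.length 0) [] (lev T x (l.getD 0 0) :: acc)) l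

@[simp] lemma gaps_nil (T : ℕ → ℕ → ℕ → Bool) : gaps T [] = [] := rfl

@[simp] lemma gaps_single (T : ℕ → ℕ → ℕ → Bool) (x : ℕ) : gaps T [x] = [] := rfl

@[simp] lemma gaps_cons₂ (T : ℕ → ℕ → ℕ → Bool) (x y : ℕ) (l : List ℕ) :
    gaps T (x :: y :: l) = lev T x y :: gaps T (y :: l) := rfl

lemma gaps_append (T : ℕ → ℕ → ℕ → Bool) {l₁ : List ℕ} (h₁ : l₁ ≠ []) (y : ℕ) (l₂ : List ℕ) :
    gaps T (l₁ ++ y :: l₂) = gaps T l₁ ++ lev T (l₁.getLast h₁) y :: gaps T (y :: l₂) := by
  induction l₁ with
  | nil => exact absurd rfl h₁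
  | cons x l ih =>
    cases l with
    | nil => simp
    | cons z l =>
      have := ih (by simp)
      simp only [List.cons_append] at this ⊢
      rw [gaps_cons₂, this, gaps_cons₂]
      simp

lemma mem_gaps (T : ℕ → ℕ → ℕ → Bool) {l : List ℕ} {v : ℕ} (hv : v ∈ gaps T l) :
    ∃ x ∈ l, ∃ y, v = lev T x y := by
  induction l with
  | nil => simp at hv
  | cons x l ih =>
    cases l with
    | nil => simp at hv
    | cons z l =>
      rw [gaps_cons₂, List.mem_cons] at hv
      rcases hv with rfl | hv
      · exact ⟨x, by simp, z, rfl⟩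
      · obtain ⟨x', hx', y, rfl⟩ := ih hv
        exact ⟨x', List.mem_cons_of_mem _ hx', y, rfl⟩

/-- number of classes: an entry is counted unless the next entry not above it equals it -/
def cls (l : List ℕ) : ℕ :=
  lrec 0 (fun x l acc => cond (eqB (l.find? fun y => leB y x) (some x)) acc (acc + 1)) l

@[simp] lemma cls_nil : cls [] = 0 := rfl

lemma cls_cons (x : ℕ) (l : List ℕ) :
    cls (x :: l) = if (l.find? fun y => leB y x) = some x then cls l else cls l + 1 := by
  show cond (eqB (l.find? fun y => leB y x) (some x)) (cls l) (cls l + 1) = _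
  by_cases h : (l.find? fun y => leB y x) = some x
  · rw [if_pos h, eqB_iff.2 h]; rfl
  · rw [if_neg h, eqB_false_iff.2 h]; rfl

/-- `b` is met in `u` at a place after which everything is above `b` -/
def spine (b : ℕ) : List ℕ → Prop
  | [] => False
  | x :: l => spine b l ∨ (x = b ∧ ∀ y ∈ l, b < y)

lemma spine_mem {b : ℕ} {u : List ℕ} (h : spine b u) : b ∈ u := by
  induction u with
  | nil => exact h.elim
  | cons x l ih =>
    rcases h with h | h
    · exact List.mem_cons_of_mem _ (ih h)
    · simp [h.1]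

lemma spine_of_min {b : ℕ} {u : List ℕ} (hb : b ∈ u) (h : ∀ y ∈ u, b ≤ y) : spine b u := by
  induction u with
  | nil => simp at hb
  | cons x l ih =>
    by_cases hl : b ∈ l
    · exact Or.inl (ih hl fun y hy => h y (List.mem_cons_of_mem _ hy))
    · right
      refine ⟨?_, fun y hy => ?_⟩
      · rcases List.mem_cons.1 hb with h1 | h1
        · exact h1.symm
        · exact absurd h1 hl
      · refine lt_of_le_of_ne (h y (List.mem_cons_of_mem _ hy)) ?_
        rintro rfl
        exact hl hy

open Classical in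
lemma cls_append (u : List ℕ) (b : ℕ) (v : List ℕ) (hv : ∀ y ∈ v, b ≤ y) :
    cls (u ++ b :: v) + (if spine b u then 1 else 0) = cls u + cls (b :: v) := by
  induction u with
  | nil => simp [spine]
  | cons x l ih =>
    rw [List.cons_append, cls_cons, cls_cons x l, List.find?_append]
    cases hf : l.find? fun y => leB y x with
    | some z =>
      have hz : z ∈ l := List.mem_of_find?_eq_some hf
      have hzx : z ≤ x := by simpa using List.find?_some hf
      have hsp : spine b (x :: l) ↔ spine b l := by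
        refine ⟨fun h => h.elim id fun h' => ?_, Or.inl⟩
        have := h'.2 z hz
        omega
      simp only [Option.some_or, hsp]
      split_ifs at ih ⊢ <;> omega
    | none =>
      have hl : ∀ y ∈ l, x < y := by
        intro y hy
        have := List.find?_eq_none.1 hf y hy
        simpa using this
      simp only [Option.none_or, reduceCtorEq, if_false]
      by_cases hxb : x = b
      · subst hxb
        have h1 : ((x :: v).find? fun y => leB y x) = some x := by simp
        have h2 : spine x (x :: l) := Or.inr ⟨rfl, hl⟩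
        have h3 : ¬ spine x l := fun h => lt_irrefl _ (hl x (spine_mem h))
        rw [if_pos h1, if_pos h2]
        rw [if_neg h3] at ih
        omega
      · have h1 : ((b :: v).find? fun y => leB y x) ≠ some x := by
          intro h
          by_cases hbx : b ≤ x
          · rw [List.find?_cons_of_pos (by simpa using hbx)] at h
            exact hxb (Option.some.inj h).symm
          · have hm := List.mem_of_find?_eq_some h
            rcases List.mem_cons.1 hm with h2 | h2
            · exact hxb h2
            · have := hv x h2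
              omega
        have hsp : spine b (x :: l) ↔ spine b l :=
          ⟨fun h => h.elim id fun h' => absurd h'.1 hxb, Or.inl⟩
        rw [if_neg h1]
        simp only [hsp]
        split_ifs at ih ⊢ <;> omega

lemma cls_join_min {u v : List ℕ} {b : ℕ} (hu : ∀ y ∈ u, b ≤ y) (hbu : b ∈ u)
    (hv : ∀ y ∈ v, b ≤ y) (hbv : b ∈ v) : cls (u ++ b :: v) + 1 = cls u + cls v := by
  have h := cls_append u b v hv
  rw [if_pos (spine_of_min hbu hu), cls_cons] at h
  have : (v.find? fun y => leB y b) = some b := by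
    cases hf : v.find? fun y => leB y b with
    | none =>
      have := List.find?_eq_none.1 hf b hbv
      simp at this
    | some z =>
      have hz : z ∈ v := List.mem_of_find?_eq_some hf
      have hzx : z ≤ b := by simpa using List.find?_some hf
      rw [le_antisymm hzx (hv z hz)]
  rw [if_pos this] at h
  exact h

lemma cls_join_lt (u : List ℕ) {v : List ℕ} {b : ℕ} (hv : ∀ y ∈ v, b < y) :
    cls (u ++ b :: v) = cls u + cls v ∨ cls (u ++ b :: v) = cls u + cls v + 1 := by
  have h := cls_append u b v fun y hy => (hv y hy).le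
  have : (v.find? fun y => leB y b) ≠ some b := fun hf =>
    lt_irrefl _ (hv b (List.mem_of_find?_eq_some hf))
  rw [cls_cons, if_neg this] at h
  split_ifs at h <;> omega

/-- the class count of a number -/
def cnt (T : ℕ → ℕ → ℕ → Bool) (Y : ℕ) : ℕ := cls (gaps T (bits Y))

lemma gaps_bits_add (T : ℕ → ℕ → ℕ → Bool) {A Y k : ℕ} (hA0 : 0 < A) (hA : A < 2 ^ k)
    (hY0 : 0 < Y) (hY : 2 ^ k ∣ Y) :
    ∃ y ∈ bits Y, gaps T (bits (A + Y)) =
      gaps T (bits A) ++ lev T ((bits A).getLast (bits_ne_nil hA0)) y :: gaps T (bits Y) := by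
  rw [bits_add hA hY]
  cases h : bits Y with
  | nil => exact absurd h (bits_ne_nil hY0)
  | cons y l => exact ⟨y, by simp, gaps_append T _ y l⟩

section ultra

variable {U : Ultrafilter ℕ}
  (hU : ∀ p : ℕ → Prop, (∀ᶠ m in (U : Filter ℕ), p m) →
    ∀ᶠ m in (U : Filter ℕ), ∀ᶠ m' in (U : Filter ℕ), p (m + m'))
  (hU' : ∀ p : ℕ → Prop, (∀ᶠ m in (U : Filter ℕ), ∀ᶠ m' in (U : Filter ℕ), p (m + m')) →
    ∀ᶠ m in (U : Filter ℕ), p m)
  (hpos : ∀ᶠ m in (U : Filter ℕ), 0 < m)

lemma exists_mod (U : Ultrafilter ℕ) (f : ℕ → ℕ) {q : ℕ} (hq : 0 < q) :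
    ∃ r, ∀ᶠ m in (U : Filter ℕ), f m % q = r := by
  have h : ∀ᶠ m in (U : Filter ℕ), ∃ r ∈ Finset.range q, f m % q = r :=
    Eventually.of_forall fun m => ⟨_, Finset.mem_range.2 (Nat.mod_lt _ hq), rfl⟩
  obtain ⟨r, -, hr⟩ := (Ultrafilter.eventually_exists_mem_iff (Finset.range q).finite_toSet).1 h
  exact ⟨r, hr⟩

include hU in
lemma ev_dvd {q : ℕ} (hq : 0 < q) : ∀ᶠ m in (U : Filter ℕ), q ∣ m := by
  obtain ⟨r, hr⟩ := exists_mod U id hq
  obtain ⟨m, hm, hm'⟩ := (hr.and (hU _ hr)).exists
  obtain ⟨m', h1, h2⟩ := (hr.and hm').exists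
  simp only [id] at hm h1 h2
  have h3 : m ≡ m + m' [MOD q] := by rw [Nat.ModEq, hm, h2]
  have h4 : q ∣ m' := by simpa using (Nat.modEq_iff_dvd' (Nat.le_add_right m m')).1 h3
  have : r = 0 := by rw [← h1]; exact Nat.mod_eq_zero_of_dvd h4
  exact hr.mono fun m hm => Nat.dvd_of_mod_eq_zero (by simpa [this] using hm)

include hU hpos in
lemma ev_cnt_true (T : ℕ → ℕ → ℕ → Bool) (h : ∀ b, ∃ c, ∀ d, T b c d = true) :
    ∀ᶠ Y in (U : Filter ℕ), cnt T Y % 3 ≠ 1 := by
  obtain ⟨r, hr⟩ := exists_mod U (cnt T) (show 0 < 3 by norm_num)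
  obtain ⟨A, ⟨hA, hA0⟩, hA'⟩ := ((hr.and hpos).and (hU _ hr)).exists
  set x := (bits A).getLast (bits_ne_nil hA0) with hx
  obtain ⟨k, hk⟩ := lev_ge T (x + 1) fun b _ => h b
  obtain ⟨Y, ⟨⟨h1, h2⟩, h3⟩, h4⟩ :=
    (((hr.and hpos).and hA').and (ev_dvd hU (Nat.two_pow_pos (A + k)))).exists
  have hAk : A < 2 ^ (A + k) :=
    lt_of_lt_of_le Nat.lt_two_pow_self (Nat.pow_le_pow_right two_pos (by omega))
  obtain ⟨y, -, hy⟩ := gaps_bits_add T hA0 hAk h2 h4
  have hv : ∀ v ∈ gaps T (bits Y), lev T x y < v := by
    intro v hv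
    obtain ⟨x', hx', y', rfl⟩ := mem_gaps T hv
    have := le_of_mem_bits h4 hx'
    have := hk x' (by omega) y'
    have := lev_le T x y
    omega
  have key := cls_join_lt (gaps T (bits A)) hv
  rw [← hy] at key
  simp only [cnt] at hA h1 h3
  have : r ≠ 1 := by omega
  exact hr.mono fun m hm => by rw [hm]; exact this

include hU hU' hpos in
lemma ev_cnt_false (T : ℕ → ℕ → ℕ → Bool) (h : ¬ ∀ b, ∃ c, ∀ d, T b c d = true) :
    ∀ᶠ Y in (U : Filter ℕ), cnt T Y % 3 = 1 := by
  classical
  have hex : ∃ b, ¬ ∃ c, ∀ d, T b c d = true := not_forall.1 h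
  set b := Nat.find hex with hb
  have hbad : ∀ c, ∃ d, T b c d = false := by
    intro c
    have : ¬ ∃ c, ∀ d, T b c d = true := Nat.find_spec hex
    push Not at this
    obtain ⟨d, hd⟩ := this c
    exact ⟨d, by simpa using hd⟩
  obtain ⟨k, hk⟩ := lev_ge T b fun b' hb' => not_not.1 (Nat.find_min hex hb')
  have hfar : ∀ᶠ Y in (U : Filter ℕ), 2 ^ (k + b + 1) ∣ Y := ev_dvd hU (Nat.two_pow_pos _)
  have hge : ∀ Y, 2 ^ (k + b + 1) ∣ Y → ∀ v ∈ gaps T (bits Y), b ≤ v := by
    intro Y hY v hv
    obtain ⟨x', hx', y', rfl⟩ := mem_gaps T hv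
    have := le_of_mem_bits hY hx'
    exact hk x' (by omega) y'
  have hcut : ∀ A, 0 < A → 2 ^ (k + b + 1) ∣ A → ∀ᶠ Y in (U : Filter ℕ),
      gaps T (bits (A + Y)) = gaps T (bits A) ++ b :: gaps T (bits Y) := by
    intro A hA0 hA
    set x := (bits A).getLast (bits_ne_nil hA0) with hx
    have hxk : k + b + 1 ≤ x := le_of_mem_bits hA (List.getLast_mem _)
    obtain ⟨k', hk'⟩ := lev_le_bad T hbad (show b < x by omega)
    filter_upwards [hpos, ev_dvd hU (Nat.two_pow_pos (A + k'))] with Y h2 h4
    have hAk : A < 2 ^ (A + k') :=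
      lt_of_lt_of_le Nat.lt_two_pow_self (Nat.pow_le_pow_right two_pos (by omega))
    obtain ⟨y, hy, hy'⟩ := gaps_bits_add T hA0 hAk h2 h4
    have h5 := le_of_mem_bits h4 hy
    have h6 : lev T x y = b := le_antisymm (hk' y (by omega)) (hk x (by omega) y)
    rw [hy', ← hx, h6]
  have hmem : ∀ᶠ Y in (U : Filter ℕ), b ∈ gaps T (bits Y) := by
    refine hU' _ ?_
    filter_upwards [hpos, hfar] with A hA0 hA
    filter_upwards [hcut A hA0 hA] with Y hY
    rw [hY]; simp
  obtain ⟨r, hr⟩ := exists_mod U (cnt T) (show 0 < 3 by norm_num)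
  obtain ⟨A, ⟨⟨⟨hA, hA0⟩, hA1⟩, hA2⟩, hA'⟩ :=
    ((((hr.and hpos).and hfar).and hmem).and (hU _ hr)).exists
  obtain ⟨Y, ⟨⟨⟨h1, h2⟩, h3⟩, h4⟩, h5⟩ :=
    ((((hr.and hfar).and hmem).and hA').and (hcut A hA0 hA1)).exists
  have key := cls_join_min (hge A hA1) hA2 (hge Y h2) h3
  rw [← h5] at key
  simp only [cnt] at hA h1 h4
  have : r = 1 := by omega
  exact hr.mono fun m hm => by rw [hm, this]

end ultra

end Pool.Agent.MP_0ee11a_lc

end MrgPart1

-- ======== part 2: formerly Pool.Agent.MP_0ee11a_lc.Col
section MrgPart2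

/-!
The colouring.  From `Y` one reads a guess for third level statements, uses it to let the
requirements `e < Y` choose numbers of pairwise different binary lengths, and arranges by a
recursion on the top binary digit that `A + Y` and `Y` get different colours whenever `A` is a
chosen number below the lowest digit of `Y`.
-/

namespace Pool.Agent.MP_0ee11a_lc

open Filter Encodable Nat.Partrec

section tree

variable {τ : Type}

/-- total cost of a recursion tree of depth `a` -/
def tree (step : ℕ → τ → List τ) (cost : ℕ → τ → ℕ) : ℕ → τ → ℕ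
  | 0, _ => 0
  | a + 1, t => cost a t + ((step a t).map (tree step cost a)).sum

/-- breadth first evaluation of `tree` -/
def run (step : ℕ → τ → List τ) (cost : ℕ → τ → ℕ) (M : ℕ) (t : τ) (n : ℕ) : List τ × ℕ :=
  natIter ([t], 0) (fun n st =>
    (st.1.flatMap (step (M - 1 - n)), st.2 + (st.1.map (cost (M - 1 - n))).sum)) n

lemma sum_tree_succ (step : ℕ → τ → List τ) (cost : ℕ → τ → ℕ) (a : ℕ) (l : List τ) :
    (l.map (tree step cost (a + 1))).sum =
      (l.map (cost a)).sum + ((l.flatMap (step a)).map (tree step cost a)).sum := by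
  induction l with
  | nil => rfl
  | cons t l ih =>
    simp only [List.map_cons, List.sum_cons, List.flatMap_cons, List.map_append, List.sum_append,
      ih]
    simp only [tree]
    omega

lemma run_spec (step : ℕ → τ → List τ) (cost : ℕ → τ → ℕ) (M : ℕ) (t : τ) :
    ∀ n ≤ M, (run step cost M t n).2 +
      ((run step cost M t n).1.map (tree step cost (M - n))).sum = tree step cost M t := by
  intro n
  induction n with
  | zero => intro _; simp [run, natIter]
  | succ n ih =>
    intro hn
    have h1 := ih (by omega)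
    have h2 : run step cost M t (n + 1) =
        ((run step cost M t n).1.flatMap (step (M - 1 - n)),
          (run step cost M t n).2 + ((run step cost M t n).1.map (cost (M - 1 - n))).sum) := rfl
    rw [show M - n = (M - 1 - n) + 1 by omega, sum_tree_succ] at h1
    rw [h2, show M - (n + 1) = M - 1 - n by omega]
    simp only
    omega

lemma run_eq (step : ℕ → τ → List τ) (cost : ℕ → τ → ℕ) (M : ℕ) (t : τ) :
    (run step cost M t M).2 = tree step cost M t := by
  have := run_spec step cost M t M le_rfl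
  rw [Nat.sub_self] at this
  have h0 : ∀ l : List τ, (l.map (tree step cost 0)).sum = 0 := by
    intro l
    induction l with
    | nil => rfl
    | cons t l ih => simp [tree]
  rw [h0] at this
  simpa using this

end tree

section delta

variable (D : ℕ → ℕ → ℕ)

/-- recursive calls -/
def step (a : ℕ) (t : ℕ × ℕ) : List (ℕ × ℕ) :=
  cond (leB (2 ^ a) t.2)
    (cond (eqB (D a t.1) 0) [(2 ^ a + t.1, t.2 - 2 ^ a)]
      [(2 ^ a + t.1, t.2 - 2 ^ a), (2 ^ a + t.1, D a t.1 - 2 ^ a)]) [t]

/-- cost of one call -/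
def cost (a : ℕ) (t : ℕ × ℕ) : ℕ :=
  cond (leB (2 ^ a) t.2) (cond (eqB (D a t.1) 0) 0 1) 0

/-- `delta D a Y B` is the intended difference of the colours of `Y + B` and `Y` -/
def delta (a Y B : ℕ) : ℕ := tree (step D) (cost D) a (Y, B)

/-- contribution of the digit `a` -/
def psi (a Y : ℕ) : ℕ :=
  if D a Y = 0 then 0 else 1 + delta D a (2 ^ a + Y) (D a Y - 2 ^ a)

lemma delta_low {a Y B : ℕ} (h : B < 2 ^ a) : delta D (a + 1) Y B = delta D a Y B := by
  have : leB (2 ^ a) B = false := leB_false_iff.2 h
  simp [delta, tree, step, cost, this]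

lemma delta_high {a Y B : ℕ} (h : 2 ^ a ≤ B) :
    delta D (a + 1) Y B = psi D a Y + delta D a (2 ^ a + Y) (B - 2 ^ a) := by
  have : leB (2 ^ a) B = true := leB_iff.2 h
  by_cases h0 : D a Y = 0
  · have h1 : eqB (D a Y) 0 = true := eqB_iff.2 h0
    simp only [delta, tree, step, cost, this, h1, psi, if_pos h0]
    simp
  · have h1 : eqB (D a Y) 0 = false := eqB_false_iff.2 h0
    simp only [delta, tree, step, cost, this, h1, psi, if_neg h0]
    simp
    omega

lemma delta_mono {a Y B : ℕ} (h : B < 2 ^ a) : ∀ M, a ≤ M → delta D M Y B = delta D a Y B := by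
  intro M hM
  induction M, hM using Nat.le_induction with
  | base => rfl
  | succ M hM ih =>
    rw [delta_low D (lt_of_lt_of_le h (Nat.pow_le_pow_right two_pos hM)), ih]

lemma delta_zero (a Y : ℕ) : delta D a Y 0 = 0 := by
  rw [delta_mono D (a := 0) (by norm_num) a (Nat.zero_le a)]
  rfl

lemma delta_add {a B : ℕ} (hB : B < 2 ^ a) : ∀ M, a ≤ M → ∀ Z Y, Y < 2 ^ M → 2 ^ a ∣ Y →
    delta D M Z (Y + B) = delta D M Z Y + delta D a (Z + Y) B := by
  intro M hM
  induction M, hM using Nat.le_induction with
  | base =>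
    intro Z Y hY hd
    have : Y = 0 := Nat.eq_zero_of_dvd_of_lt hd hY
    subst this
    simp [delta_zero]
  | succ M hM ih =>
    intro Z Y hY hd
    have hdM : 2 ^ a ∣ 2 ^ M := pow_dvd_pow 2 hM
    by_cases h : Y < 2 ^ M
    · have h1 : Y + 2 ^ a ≤ 2 ^ M := by
        obtain ⟨u, rfl⟩ := hd
        obtain ⟨w, hw⟩ := hdM
        rw [hw] at h ⊢
        have : u < w := lt_of_mul_lt_mul_left h (Nat.zero_le _)
        calc 2 ^ a * u + 2 ^ a = 2 ^ a * (u + 1) := by ring
          _ ≤ 2 ^ a * w := Nat.mul_le_mul_left _ this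
      rw [delta_low D (show Y + B < 2 ^ M by omega), delta_low D h, ih Z Y h hd]
    · have h1 : 2 ^ M ≤ Y := not_lt.1 h
      have h2 : Y - 2 ^ M < 2 ^ M := by rw [pow_succ] at hY; omega
      rw [delta_high D (show 2 ^ M ≤ Y + B by omega), delta_high D h1,
        show Y + B - 2 ^ M = (Y - 2 ^ M) + B by omega,
        ih _ _ h2 (Nat.dvd_sub hd hdM), show 2 ^ M + Z + (Y - 2 ^ M) = Z + Y by omega]
      omega

/-- the colouring attached to a choice function `D` -/
def colD (X : ℕ) : ℕ := delta D X 0 X % 2

lemma colD_eq {X M : ℕ} (h : X < 2 ^ M) : colD D X = delta D M 0 X % 2 := by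
  unfold colD
  rw [← delta_mono D Nat.lt_two_pow_self (max X M) (le_max_left _ _),
    delta_mono D h (max X M) (le_max_right _ _)]

lemma colD_ne {a Y A : ℕ} (h1 : 2 ^ a ≤ A) (h2 : A < 2 ^ (a + 1)) (hY : 2 ^ (a + 1) ∣ Y)
    (hD : D a Y = A) : colD D (A + Y) ≠ colD D Y := by
  set M := A + Y + (a + 1) with hM
  have hlt : A + Y < 2 ^ M :=
    lt_of_lt_of_le Nat.lt_two_pow_self (Nat.pow_le_pow_right two_pos (by omega))
  have hA0 : A ≠ 0 := by have := Nat.two_pow_pos a; omega
  rw [colD_eq D hlt, colD_eq D (show Y < 2 ^ M by omega), add_comm A Y,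
    delta_add D h2 M (by omega) 0 Y (by omega) hY, zero_add, delta_high D h1, psi, hD, if_neg hA0]
  omega

lemma colD_computable (hD : ComputableIn ∅ fun p : ℕ × ℕ => D p.1 p.2) :
    Computable (colD D) := by
  have hD' : ∀ {α : Type} [Primcodable α] {f g : α → ℕ}, ComputableIn ∅ f → ComputableIn ∅ g →
      ComputableIn ∅ fun x => D (f x) (g x) := fun hf hg => c_comp hD (c_pair hf hg)
  have hs : ComputableIn ∅ fun p : ℕ × (ℕ × ℕ) => step D p.1 p.2 := by
    have := hD' (α := ℕ × (ℕ × ℕ)) (f := fun p => p.1) (g := fun p => p.2.1)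
      (by fun_prop) (by fun_prop)
    unfold step
    fun_prop
  have hc : ComputableIn ∅ fun p : ℕ × (ℕ × ℕ) => cost D p.1 p.2 := by
    have := hD' (α := ℕ × (ℕ × ℕ)) (f := fun p => p.1) (g := fun p => p.2.1)
      (by fun_prop) (by fun_prop)
    unfold cost
    fun_prop
  have hs' : ∀ {α : Type} [Primcodable α] {f : α → ℕ} {g : α → ℕ × ℕ}, ComputableIn ∅ f →
      ComputableIn ∅ g → ComputableIn ∅ fun x => step D (f x) (g x) :=
    fun hf hg => c_comp hs (c_pair hf hg)
  have hc' : ∀ {α : Type} [Primcodable α] {f : α → ℕ} {g : α → ℕ × ℕ}, ComputableIn ∅ f →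
      ComputableIn ∅ g → ComputableIn ∅ fun x => cost D (f x) (g x) :=
    fun hf hg => c_comp hc (c_pair hf hg)
  have h1 : ComputableIn ∅ fun p : ℕ × ℕ × List (ℕ × ℕ) × ℕ =>
      p.2.2.1.flatMap fun t => step D (p.1 - 1 - p.2.1) t :=
    c_flatMap (f := fun p : ℕ × ℕ × List (ℕ × ℕ) × ℕ => p.2.2.1)
      (g := fun p t => step D (p.1 - 1 - p.2.1) t) (by fun_prop)
      (hs' (f := fun q : (ℕ × ℕ × List (ℕ × ℕ) × ℕ) × (ℕ × ℕ) => q.1.1 - 1 - q.1.2.1)
        (g := fun q => q.2) (by fun_prop) (by fun_prop))
  have h2 : ComputableIn ∅ fun p : ℕ × ℕ × List (ℕ × ℕ) × ℕ =>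
      p.2.2.1.map fun t => cost D (p.1 - 1 - p.2.1) t :=
    c_map (f := fun p : ℕ × ℕ × List (ℕ × ℕ) × ℕ => p.2.2.1)
      (g := fun p t => cost D (p.1 - 1 - p.2.1) t) (by fun_prop)
      (hc' (f := fun q : (ℕ × ℕ × List (ℕ × ℕ) × ℕ) × (ℕ × ℕ) => q.1.1 - 1 - q.1.2.1)
        (g := fun q => q.2) (by fun_prop) (by fun_prop))
  have h3 : ComputableIn ∅ fun X : ℕ => run (step D) (cost D) X (0, X) X :=
    c_natIter (f := fun X : ℕ => X) (g := fun X => (([(0, X)], 0) : List (ℕ × ℕ) × ℕ))
      (h := fun X n st => (st.1.flatMap (step D (X - 1 - n)),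
        st.2 + (st.1.map (cost D (X - 1 - n))).sum))
      (by fun_prop) (by fun_prop)
      (c_pair h1 (c_add (f := fun p : ℕ × ℕ × List (ℕ × ℕ) × ℕ => p.2.2.2) (by fun_prop)
        (c_sum h2)))
  refine toC (cin_of_eq (f := fun X => (run (step D) (cost D) X (0, X) X).2 % 2)
    (c_mod (c_snd h3) (c_const _)) fun X => by rw [run_eq]; rfl)

end delta

/-- the test attached to the program `e` and the pair `k`: the program has not yet answered
`false` -/
def test (e k b c d : ℕ) : Bool :=
  !eqB (Code.evaln d.unpair.2 (Denumerable.ofNat Code e)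
    (encode (k.unpair.1, k.unpair.2, b, c, d.unpair.1))) (some 0)

/-- the guess read from `Y` -/
def guess (e k Y : ℕ) : Bool := !eqB (cnt (test e k) Y % 3) 1

/-- binary length -/
def len (n : ℕ) : ℕ := ((List.range n).filter fun i => leB (2 ^ i) n).length

lemma len_eq (n : ℕ) : len n = Nat.size n := by
  have h : ((List.range n).filter fun i => leB (2 ^ i) n) = List.range (Nat.size n) := by
    refine List.Pairwise.eq_of_mem_iff (r := (· < ·))
      (List.Pairwise.filter _ List.pairwise_lt_range) List.pairwise_lt_range fun i => ?_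
    simp only [List.mem_filter, List.mem_range, leB_iff, Nat.lt_size]
    exact ⟨fun h => h.2, fun h => ⟨lt_of_lt_of_le Nat.lt_two_pow_self h, h⟩⟩
  rw [len, h, List.length_range]

/-- admissible pairs for the requirement `e`, given the earlier choices -/
def adm (Y e : ℕ) (acc : List ℕ) (k : ℕ) : Bool :=
  guess e k Y && (leB 1 k.unpair.1 && acc.all fun m => !eqB (len m) (len k.unpair.1))

/-- the choice of the requirement `e` -/
def pick (Y e : ℕ) (acc : List ℕ) : ℕ :=
  (((List.range Y).find? (adm Y e acc)).getD 0).unpair.1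

/-- the choices of the first `n` requirements -/
def asg (Y n : ℕ) : List ℕ := natIter [] (fun e acc => acc ++ [pick Y e acc]) n

/-- the chosen number with top digit `a` -/
def chosen (a Y : ℕ) : ℕ := ((asg Y Y).find? fun m => eqB (len m) (a + 1)).getD 0

lemma c_test : ComputableIn ∅ fun p : ℕ × ℕ × ℕ × ℕ × ℕ =>
    test p.1 p.2.1 p.2.2.1 p.2.2.2.1 p.2.2.2.2 := by
  unfold test
  fun_prop

@[fun_prop] lemma c_test' {α : Type} [Primcodable α] {e k b c d : α → ℕ} (he : ComputableIn ∅ e)
    (hk : ComputableIn ∅ k) (hb : ComputableIn ∅ b) (hc : ComputableIn ∅ c)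
    (hd : ComputableIn ∅ d) : ComputableIn ∅ fun x => test (e x) (k x) (b x) (c x) (d x) :=
  c_comp c_test (g := fun x => (e x, k x, b x, c x, d x)) (by fun_prop)

lemma c_lev : ComputableIn ∅ fun p : ℕ × ℕ × ℕ × ℕ =>
    lev (test p.1 p.2.1) p.2.2.1 p.2.2.2 := by
  unfold lev
  fun_prop

@[fun_prop] lemma c_lev' {α : Type} [Primcodable α] {e k x y : α → ℕ} (he : ComputableIn ∅ e)
    (hk : ComputableIn ∅ k) (hx : ComputableIn ∅ x) (hy : ComputableIn ∅ y) :
    ComputableIn ∅ fun a => lev (test (e a) (k a)) (x a) (y a) :=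
  c_comp c_lev (g := fun a => (e a, k a, x a, y a)) (by fun_prop)

@[fun_prop] lemma c_bits {α : Type} [Primcodable α] {f : α → ℕ} (hf : ComputableIn ∅ f) :
    ComputableIn ∅ fun a => bits (f a) := by
  unfold bits
  fun_prop

@[fun_prop] lemma c_cls {α : Type} [Primcodable α] {f : α → List ℕ} (hf : ComputableIn ∅ f) :
    ComputableIn ∅ fun a => cls (f a) := by
  unfold cls
  fun_prop

@[fun_prop] lemma c_len {α : Type} [Primcodable α] {f : α → ℕ} (hf : ComputableIn ∅ f) :
    ComputableIn ∅ fun a => len (f a) := by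
  unfold len
  fun_prop

lemma c_guess : ComputableIn ∅ fun p : ℕ × ℕ × ℕ => guess p.1 p.2.1 p.2.2 := by
  unfold guess cnt gaps
  fun_prop

@[fun_prop] lemma c_guess' {α : Type} [Primcodable α] {e k x : α → ℕ} (he : ComputableIn ∅ e)
    (hk : ComputableIn ∅ k) (hx : ComputableIn ∅ x) :
    ComputableIn ∅ fun a => guess (e a) (k a) (x a) :=
  c_comp c_guess (g := fun a => (e a, k a, x a)) (by fun_prop)

lemma c_pick : ComputableIn ∅ fun p : ℕ × ℕ × List ℕ => pick p.1 p.2.1 p.2.2 := by
  unfold pick adm
  fun_prop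

@[fun_prop] lemma c_pick' {α : Type} [Primcodable α] {e k : α → ℕ} {l : α → List ℕ}
    (he : ComputableIn ∅ e) (hk : ComputableIn ∅ k) (hl : ComputableIn ∅ l) :
    ComputableIn ∅ fun a => pick (e a) (k a) (l a) :=
  c_comp c_pick (g := fun a => (e a, k a, l a)) (by fun_prop)

lemma c_chosen : ComputableIn ∅ fun p : ℕ × ℕ => chosen p.1 p.2 := by
  unfold chosen asg
  fun_prop

lemma asg_succ (Y n : ℕ) : asg Y (n + 1) = asg Y n ++ [pick Y n (asg Y n)] := rfl

lemma asg_length (Y n : ℕ) : (asg Y n).length = n := by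
  induction n with
  | zero => rfl
  | succ n ih => rw [asg_succ, List.length_append, ih]; rfl

lemma asg_ext (Y : ℕ) {n m : ℕ} (h : n ≤ m) : ∃ l, asg Y m = asg Y n ++ l := by
  induction m, h using Nat.le_induction with
  | base => exact ⟨[], by simp⟩
  | succ m _ ih =>
    obtain ⟨l, hl⟩ := ih
    exact ⟨l ++ [pick Y m (asg Y m)], by rw [asg_succ, ← List.append_assoc, ← hl]⟩

/-- if an admissible pair lies below `K ≤ Y` then the requirement chooses the first component of
an admissible pair below `K`, and the recursion sees this choice -/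
lemma chosen_spec {Y e K : ℕ} (he : e < Y) (hK : K ≤ Y) {k : ℕ} (hk : k < K)
    (hadm : adm Y e (asg Y e) k = true) :
    ∃ k' < K, guess e k' Y = true ∧ 0 < k'.unpair.1 ∧
      chosen (Nat.size k'.unpair.1 - 1) Y = k'.unpair.1 := by
  cases hf : (List.range Y).find? (adm Y e (asg Y e)) with
  | none =>
    exact absurd hadm (List.find?_eq_none.1 hf k (List.mem_range.2 (by omega)))
  | some k' =>
    have hf' := List.find?_range_eq_some.1 hf
    have hle : k' ≤ k := by
      by_contra hlt
      have := hf'.2.2 k (by omega)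
      rw [hadm] at this
      exact absurd this (by simp)
    have h1 := hf'.1
    simp only [adm, Bool.and_eq_true, leB_iff, List.all_eq_true, Bool.not_eq_true',
      eqB_false_iff] at h1
    obtain ⟨hg, hpos, hall⟩ := h1
    refine ⟨k', by omega, hg, hpos, ?_⟩
    have hp : pick Y e (asg Y e) = k'.unpair.1 := by rw [pick, hf]; rfl
    obtain ⟨l, hl⟩ := asg_ext Y (show e + 1 ≤ Y from he)
    have hs : Nat.size k'.unpair.1 - 1 + 1 = len k'.unpair.1 := by
      rw [len_eq]
      have := Nat.size_pos.2 hpos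
      omega
    rw [chosen, hl, asg_succ, hp, hs, List.append_assoc, List.find?_append]
    have hn : ((asg Y e).find? fun m => eqB (len m) (len k'.unpair.1)) = Option.none := by
      rw [List.find?_eq_none]
      intro m hm
      simpa using hall m hm
    rw [hn]
    simp

end Pool.Agent.MP_0ee11a_lc

end MrgPart2

-- ======== part 3: formerly Pool.Agent.MP_0ee11a_lc.Main
section MrgPart3

/-!
No infinite set of positive integers that is defined by a formula of the shape
exists, for all, exists, for all over a computable relation is a solution for the colouring.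
-/

namespace Pool.Agent.MP_0ee11a_lc

open Filter Encodable Nat.Partrec

attribute [local instance] Ultrafilter.add

lemma fs_finset {f : ℕ → ℕ} {m : ℕ} (a : Stream' ℕ)
    (hm : m ∈ Hindman.FS a) : ∀ n, (∀ i, a.get i = f (n + i)) →
      ∃ s : Finset ℕ, s.Nonempty ∧ (∀ i ∈ s, n ≤ i) ∧ m = ∑ i ∈ s, f i := by
  induction hm with
  | head' a =>
    intro n h
    refine ⟨{n}, by simp, by simp, ?_⟩
    simpa using h 0
  | tail' a m _ ih =>
    intro n h
    obtain ⟨s, h1, h2, h3⟩ := ih (n + 1) fun i => by
      rw [Stream'.get_tail, h]; congr 1; omega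
    exact ⟨s, h1, fun i hi => by have := h2 i hi; omega, h3⟩
  | cons' a m _ ih =>
    intro n h
    obtain ⟨s, h1, h2, h3⟩ := ih (n + 1) fun i => by
      rw [Stream'.get_tail, h]; congr 1; omega
    have hn : n ∉ s := fun hn => by have := h2 n hn; omega
    refine ⟨insert n s, by simp, ?_, ?_⟩
    · intro i hi
      rcases Finset.mem_insert.1 hi with rfl | hi
      · exact le_rfl
      · have := h2 i hi; omega
    · rw [Finset.sum_insert hn, h3]
      congr 1
      simpa using h 0

/-- an idempotent ultrafilter on finite sums of an infinite set -/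
lemma exists_ultra {S : Set ℕ} (hS : S.Infinite) : ∃ U : Ultrafilter ℕ,
    (∀ p : ℕ → Prop, (∀ᶠ m in (U : Filter ℕ), p m) ↔
      ∀ᶠ m in (U : Filter ℕ), ∀ᶠ m' in (U : Filter ℕ), p (m + m')) ∧
    ∀ᶠ m in (U : Filter ℕ), ∃ F : Finset ℕ, F.Nonempty ∧ (↑F : Set ℕ) ⊆ S ∧ m = ∑ x ∈ F, x := by
  classical
  let f : ℕ → ℕ := fun i => (hS.natEmbedding S i : ℕ)
  have hf : Function.Injective f := fun i j h => (hS.natEmbedding S).injective (Subtype.ext h)
  obtain ⟨U, hU, hFS⟩ := Hindman.exists_idempotent_ultrafilter_le_FS (M := ℕ) f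
  refine ⟨U, fun p => ?_, hFS.mono fun m hm => ?_⟩
  · rw [← Ultrafilter.eventually_add, hU]
  · obtain ⟨s, h1, -, h3⟩ := fs_finset (f := f) f hm 0 fun i => by rw [zero_add]; rfl
    refine ⟨s.image f, h1.image f, ?_, ?_⟩
    · intro x hx
      obtain ⟨i, -, rfl⟩ := Finset.mem_image.1 (Finset.mem_coe.1 hx)
      exact (hS.natEmbedding S i).2
    · rw [Finset.sum_image fun i _ j _ h => hf h, h3]

lemma exists_code {R : ℕ × ℕ × ℕ × ℕ × ℕ → Prop} (hR : ComputablePred R) :
    ∃ e : ℕ, ∀ k b c, (∀ d, test e k b c d = true) ↔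
      ∀ d, R (k.unpair.1, k.unpair.2, b, c, d) := by
  classical
  obtain ⟨_, hR⟩ := hR
  obtain ⟨c₀, hc⟩ := Code.exists_code.1 hR
  have hev : ∀ x, c₀.eval (encode x) = Part.some (encode (decide (R x))) := by
    intro x
    rw [hc]
    simp only [encodek]
    simp
  refine ⟨encode c₀, fun k b c => ⟨fun h d => ?_, fun h d => ?_⟩⟩
  · by_contra hn
    have h0 : 0 ∈ c₀.eval (encode (k.unpair.1, k.unpair.2, b, c, d)) := by
      rw [hev]; simp [hn]
    obtain ⟨s, hs⟩ := Code.evaln_complete.1 h0
    have := h (Nat.pair d s)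
    simp only [test, Nat.unpair_pair, Denumerable.ofNat_encode, Bool.not_eq_true',
      eqB_false_iff] at this
    exact this hs
  · simp only [test, Denumerable.ofNat_encode, Bool.not_eq_true', eqB_false_iff]
    intro hs
    have h0 := Code.evaln_sound (show 0 ∈ _ from hs)
    rw [hev] at h0
    simp [h d.unpair.1] at h0

lemma sizes_infinite {H : Set ℕ} (hH : H.Infinite) : (Nat.size '' H).Infinite := by
  intro hfin
  obtain ⟨B, hB⟩ := hfin.bddAbove
  refine hH ((Set.finite_lt_nat (2 ^ B)).subset fun n hn => ?_)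
  exact Nat.size_le.1 (hB ⟨n, hn, rfl⟩)

theorem no_solution (H : Set ℕ) (hH : H.Infinite) (hpos : ∀ x ∈ H, 0 < x)
    {R : ℕ × ℕ × ℕ × ℕ × ℕ → Prop} (hR : ComputablePred R)
    (hHR : ∀ n, n ∈ H ↔ ∃ a, ∀ b, ∃ c, ∀ d, R (n, a, b, c, d)) :
    ¬ ∃ i : ℕ, ∀ F : Finset ℕ, F.Nonempty → (↑F : Set ℕ) ⊆ H →
      colD chosen (∑ x ∈ F, x) = i := by
  classical
  rintro ⟨i, hi⟩
  obtain ⟨e, he⟩ := exists_code hR
  have hP : ∀ k, (∀ b, ∃ c, ∀ d, test e k b c d = true) ↔
      ∀ b, ∃ c, ∀ d, R (k.unpair.1, k.unpair.2, b, c, d) := fun k =>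
    forall_congr' fun b => exists_congr fun c => he k b c
  obtain ⟨W, hW, hWc⟩ := (sizes_infinite hH).exists_subset_card_eq (e + 1)
  have hW' : ∀ w ∈ W, ∃ k : ℕ, Nat.size k.unpair.1 = w ∧ 0 < k.unpair.1 ∧
      ∀ b, ∃ c, ∀ d, test e k b c d = true := by
    intro w hw
    obtain ⟨n, hn, rfl⟩ := hW (Finset.mem_coe.2 hw)
    obtain ⟨a, ha⟩ := (hHR n).1 hn
    refine ⟨Nat.pair n a, by simp, by simpa using hpos n hn, (hP _).2 (by simpa using ha)⟩
  choose! κ hκ using hW'
  set K := W.sup κ + e + 1 with hK
  have hS : (H \ Set.Iic K).Infinite := hH.sdiff (Set.finite_Iic K)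
  obtain ⟨U, hU, hFS⟩ := exists_ultra hS
  have hU0 : ∀ᶠ m in (U : Filter ℕ), 0 < m := by
    refine hFS.mono ?_
    rintro m ⟨F, hF, hFS, rfl⟩
    exact Finset.sum_pos (fun x hx => hpos x (hFS (Finset.mem_coe.2 hx)).1) hF
  have hguess : ∀ k, ∀ᶠ Y in (U : Filter ℕ),
      (guess e k Y = true ↔ ∀ b, ∃ c, ∀ d, test e k b c d = true) := by
    intro k
    by_cases h : ∀ b, ∃ c, ∀ d, test e k b c d = true
    · filter_upwards [ev_cnt_true (fun p => (hU p).1) hU0 _ h] with Y hY
      simp [guess, hY, h]
    · filter_upwards [ev_cnt_false (fun p => (hU p).1) (fun p => (hU p).2) hU0 _ h] with Y hY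
      simp only [guess, hY, h]
      simp
  have hall := (eventually_all_finset (Finset.range K)).2 fun k _ => hguess k
  obtain ⟨Y, ⟨⟨hY0, hYd⟩, hYg⟩, F, hF, hFS', hYF⟩ :=
    (((hU0.and (ev_dvd (fun p => (hU p).1) (Nat.two_pow_pos K))).and hall).and hFS).exists
  have hKY : K ≤ Y := le_trans Nat.lt_two_pow_self.le (Nat.le_of_dvd hY0 hYd)
  obtain ⟨w, hw, hw'⟩ : ∃ w ∈ W, w ∉ ((asg Y e).map Nat.size).toFinset := by
    by_contra hcon
    push Not at hcon
    have h1 := Finset.card_le_card (show W ⊆ ((asg Y e).map Nat.size).toFinset from hcon)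
    have h2 := List.toFinset_card_le ((asg Y e).map Nat.size)
    rw [List.length_map, asg_length] at h2
    omega
  have hκK : κ w < K := by
    have : κ w ≤ W.sup κ := Finset.le_sup hw
    omega
  have hadm : adm Y e (asg Y e) (κ w) = true := by
    simp only [adm, Bool.and_eq_true, leB_iff, List.all_eq_true, Bool.not_eq_true',
      eqB_false_iff]
    refine ⟨(hYg _ (Finset.mem_range.2 hκK)).2 (hκ w hw).2.2, (hκ w hw).2.1, fun m hm h => hw' ?_⟩
    rw [len_eq, len_eq, (hκ w hw).1] at h
    rw [List.mem_toFinset, List.mem_map]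
    exact ⟨m, hm, h⟩
  obtain ⟨k, hk, hg, hk0, hch⟩ := chosen_spec (show e < Y by omega) hKY hκK hadm
  set A := k.unpair.1 with hA
  have hAH : A ∈ H := (hHR A).2 ⟨k.unpair.2, (hP k).1 ((hYg k (Finset.mem_range.2 hk)).1 hg)⟩
  have hAK : A < K := lt_of_le_of_lt (Nat.unpair_left_le k) hk
  have hs : Nat.size A - 1 + 1 = Nat.size A := by
    have := Nat.size_pos.2 hk0
    omega
  have hsK : Nat.size A ≤ K := Nat.size_le.2 (lt_trans hAK Nat.lt_two_pow_self)
  have hne := colD_ne chosen (a := Nat.size A - 1) (Y := Y) (A := A)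
    (Nat.lt_size.1 (by omega)) (by rw [hs]; exact Nat.lt_size_self A)
    (by rw [hs]; exact (pow_dvd_pow 2 hsK).trans hYd) hch
  have hAF : A ∉ F := fun h => (hFS' (Finset.mem_coe.2 h)).2 hAK.le
  have h1 := hi F hF fun x hx => (hFS' hx).1
  have h2 := hi (insert A F) (by simp) (by
    rw [Finset.coe_insert]
    exact Set.insert_subset hAH fun x hx => (hFS' hx).1)
  rw [Finset.sum_insert hAF, ← hYF] at h2
  rw [← hYF] at h1
  exact hne (h2.trans h1.symm)

end Pool.Agent.MP_0ee11a_lc

end MrgPart3

-- marker of a merged file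
example : 731051 + 769629 = 731051 + 769629 := rfl
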